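import Pool.Agent.Helper7.KS2.Final

set_option autoImplicit false
open Classical

namespace Pool.Agent.Results.MP_c4bd07_co.BelowTwiceSum

/-- For every `κ > 0` there are `δ > 0` and `M₀` such that every `(m_1,...,m_k)`-composed graph with
`M = Σ m_i ≥ M₀` and `m_i ≥ κ M` for some `i` is colourable with `⌊(2 - δ) M⌋` colours. -/
theorem result :
    ∀ κ : ℝ, 0 < κ → ∃ δ : ℝ, 0 < δ ∧ ∃ M₀ : ℕ,
      ∀ (k : ℕ) (m : Fin k → ℕ) (V : Type) [Fintype V] (G : SimpleGraph V)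
      (H : Fin k → SimpleGraph V),
      (∀ i, ∀ S : Finset V, S.Nonempty →
          ∃ v ∈ S, (S.filter (fun w => (H i).Adj v w)).card ≤ m i) →
      G = ⨆ i, H i →
      (∃ i, κ * ((∑ i, m i : ℕ) : ℝ) ≤ m i) → M₀ ≤ ∑ i, m i →
      G.Colorable ⌊(2 - δ) * ((∑ i, m i : ℕ) : ℝ)⌋₊ := by
  intro κ hκ
  exact Helper7.KS2.main κ hκ

end Pool.Agent.Results.MP_c4bd07_co.BelowTwiceSum
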