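import Pool.Agent.Helper7.KS.Sigma

set_option autoImplicit false
open Classical

namespace Pool.Agent.Results.MP_c4bd07_co.FractionalDoubleExcess

/-- `G` has a fractional colouring of total weight at most `x`: nonnegative weights on the sets of
vertices, supported on independent sets, such that every vertex gets total weight at least `1`. -/
def FracColorable {V : Type} [Fintype V] (G : SimpleGraph V) (x : ℝ) : Prop :=
  ∃ w : Finset V → ℝ, (∀ I, 0 ≤ w I) ∧
    (∀ I, w I ≠ 0 → ∀ a ∈ I, ∀ b ∈ I, ¬ G.Adj a b) ∧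
    (∀ v, 1 ≤ ∑ I, if v ∈ I then w I else 0) ∧
    ∑ I, w I ≤ x

/-- The fractional Klein-Schoenheim bound with the excess over `M = Σ m_i` doubled, and the sharper
bound `(√M + √(M - m_i))² + 1`. -/
theorem result :
    ∀ (k : ℕ) (m : Fin k → ℕ) (V : Type) [Fintype V] (G : SimpleGraph V)
      (H : Fin k → SimpleGraph V),
      (∀ i, ∀ S : Finset V, S.Nonempty →
          ∃ v ∈ S, (S.filter (fun w => (H i).Adj v w)).card ≤ m i) →
      G = ⨆ i, H i →
      FracColorable G (((∑ i, m i : ℕ) : ℝ) + 1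
        + Real.sqrt (8 * (((∑ i, ∑ j, if i < j then m i * m j else 0 : ℕ)) : ℝ))) ∧
      ∀ i₀, FracColorable G ((Real.sqrt ((∑ i, m i : ℕ) : ℝ)
        + Real.sqrt ((∑ i ∈ Finset.univ.erase i₀, m i : ℕ) : ℝ)) ^ 2 + 1) := by
  intro k m V _ G H h hG
  exact ⟨Helper7.KS.frac_sigma m G H h hG, fun i₀ => Helper7.KS.frac_main G H h hG i₀⟩

end Pool.Agent.Results.MP_c4bd07_co.FractionalDoubleExcess
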