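import Pool.Agent.Helper7.KS3.CLT
import Pool.Agent.Helper7.KS3.Final2
import Pool.Agent.Helper7.KS3.LLL
import Pool.Agent.Helper19.KS3.STQ
import Pool.Agent.Helper39.KS3.REC
import Pool.Agent.Helper48.KS3.LEV
import Pool.Agent.Helper7.KS4.One
import Pool.Agent.Helper7.KS4.Rec
import Pool.Agent.Helper9.KS4.WSL

set_option autoImplicit false
open Classical

namespace Pool.Agent.Results.MP_c4bd07_co.LinearDominance

/-- Let `G` be `(m_1,...,m_k)`-composed, `i₀` one of the indices and `r = Σ_{i ≠ i₀} m_i`. If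
`m_{i₀} ≥ 10^36 q^9 (r + 1)`, or if `m_{i₀} ≥ 10^11 q^6 (r + 1) (⌊log₂ m_{i₀}⌋ + 1)²`, then `G` is
`m_{i₀} + ⌊m_{i₀} / q⌋`-colourable, for every number of vertices. -/
theorem result :
    ∀ (q k : ℕ) (m : Fin k → ℕ) (V : Type) [Fintype V] (G : SimpleGraph V)
      (H : Fin k → SimpleGraph V) (i₀ : Fin k), 1 ≤ q →
      (∀ i, ∀ S : Finset V, S.Nonempty →
          ∃ v ∈ S, (S.filter (fun w => (H i).Adj v w)).card ≤ m i) →
      G = ⨆ i, H i →
      (10 ^ 36 * q ^ 9 * ((∑ i ∈ Finset.univ.erase i₀, m i) + 1) ≤ m i₀ ∨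
        10 ^ 11 * q ^ 6 * ((∑ i ∈ Finset.univ.erase i₀, m i) + 1) * (Nat.log 2 (m i₀) + 1) ^ 2
          ≤ m i₀) →
      G.Colorable (m i₀ + m i₀ / q) := by
  intro q k m V _ G H i₀ hq hH hG hM
  have hC := Helper7.KS3.s_clt Helper48.KS3.s_lev Helper39.KS3.s_rec
    (Helper19.KS3.s_stq Helper7.KS3.s_lll)
  rcases hM with hM | hM
  · exact Helper7.KS4.main4 (Helper7.KS4.s_one Helper9.KS4.wsl) hC q k m G H i₀ hq hH hG hM
  · exact Helper7.KS3.main2 hC q k m V G H hq hH hG i₀ hM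

end Pool.Agent.Results.MP_c4bd07_co.LinearDominance
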