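import Pool.Agent.Helper7.KS.Final

set_option autoImplicit false
open Classical

namespace Pool.Agent.Results.MP_c4bd07_co.LogOrderBound

/-- Every composed graph with fewer than `2^L` vertices is colourable with
`M + 4 √(2 L σ) + 2 L² + 2 L + 1` colours, `M = Σ m_i`, `σ = Σ_{i<j} m_i m_j`. -/
theorem result :
    ∀ (k : ℕ) (m : Fin k → ℕ) (V : Type) [Fintype V] (G : SimpleGraph V)
      (H : Fin k → SimpleGraph V),
      (∀ i, ∀ S : Finset V, S.Nonempty →
          ∃ v ∈ S, (S.filter (fun w => (H i).Adj v w)).card ≤ m i) →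
      G = ⨆ i, H i →
      ∀ L : ℕ, Fintype.card V < 2 ^ L →
      G.Colorable (∑ i, m i + ⌊4 * Real.sqrt (2 * (L : ℝ)
        * (((∑ i, ∑ j, if i < j then m i * m j else 0 : ℕ)) : ℝ))⌋₊ + 2 * L ^ 2 + 2 * L + 1) := by
  intro k m V _ G H h hG L hL
  exact Helper7.KS.colour_sigma m G H h hG L hL

end Pool.Agent.Results.MP_c4bd07_co.LogOrderBound
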